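import Pool.Agent.Helper98.QR.StmtsT

/-!
# Row T09: the number of quadrangulations with a general boundary
-/

set_option autoImplicit false

namespace QR

noncomputable section

namespace A39T

theorem VN_eq (h3 : ST_T03) (h7 : ST_T07) (h8 : ST_T08) :
    ∀ M N P : ℕ, 2 * N + P ≤ M → VN N P = UN N P := by
  intro M
  induction M with
  | zero =>
    intro N P h
    have hP : P = 0 := by omega
    simp only [VN, UN, if_pos hP]
  | succ M ih =>
    intro N P h
    by_cases hP : P = 0
    · simp only [VN, UN, if_pos hP]
    · have hP1 : 1 ≤ P := Nat.one_le_iff_ne_zero.2 hP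
      apply le_antisymm
      · have h4 := h3 N P hP1
        have hpos : (0 : ℝ) < (4 * N + 2 * P).factorial := by
          exact_mod_cast Nat.factorial_pos _
        simp only [VN, UN, if_neg hP]
        rw [div_le_iff₀ hpos]
        refine h4.trans (le_of_eq ?_)
        exact mul_comm _ _
      · rw [← h8 N P hP1]
        refine le_trans (le_of_eq ?_) (h7 N P hP1)
        congr 1
        · apply Finset.sum_congr rfl
          intro a ha
          apply Finset.sum_congr rfl
          intro b hb
          rw [Finset.mem_range] at ha hb
          rw [ih a b (by omega), ih (N - a) (P - 1 - b) (by omega)]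
        · by_cases hN : N = 0
          · rw [if_pos hN, if_pos hN]
          · rw [if_neg hN, if_neg hN, ih (N - 1) (P + 1) (by omega)]

end A39T

theorem st_T09 (h3 : ST_T03) (h7 : ST_T07) (h8 : ST_T08) : ST_T09 := by
  intro N P hP
  have h := A39T.VN_eq h3 h7 h8 (2 * N + P) N P le_rfl
  have hP0 : P ≠ 0 := by omega
  have hpos : ((4 * N + 2 * P).factorial : ℝ) ≠ 0 := by
    exact_mod_cast (Nat.factorial_pos _).ne'
  simp only [VN, UN, if_neg hP0] at h
  rw [div_eq_iff hpos] at h
  rw [h]
  exact mul_comm _ _

end

end QR
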