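import Pool.Agent.Helper98.QR.StmtsS

/-!
# Row S05: from tail constants to averages over `N`
-/

set_option autoImplicit false

namespace QR

noncomputable section

open Filter Topology

namespace A39S

theorem uu_pos (N P : ℕ) : 0 < uu N P := by
  unfold uu
  positivity

theorem two_rpow : (2 : ℝ) ^ (5 / 2 : ℝ) ≤ 6 := by
  have h : ((2 : ℝ) ^ (5 / 2 : ℝ)) ^ 2 = 32 := by
    rw [← Real.rpow_natCast, ← Real.rpow_mul (by norm_num)]
    norm_num
  have h0 : (0 : ℝ) ≤ (2 : ℝ) ^ (5 / 2 : ℝ) := by positivity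
  nlinarith

theorem sum_le_tl (a : PowerSeries ℝ) (h0 : ∀ n, 0 ≤ PowerSeries.coeff n a)
    (hs : Summable (fun n => PowerSeries.coeff n a)) (M : ℕ) :
    ∑ N ∈ Finset.Ico M (2 * M), PowerSeries.coeff N a ≤ tl a M := by
  rw [Finset.sum_Ico_eq_sum_range]
  have h1 : ∀ k : ℕ, PowerSeries.coeff (M + k) a = PowerSeries.coeff (k + M) a := by
    intro k
    rw [add_comm]
  rw [Finset.sum_congr rfl (fun k _ => h1 k)]
  unfold tl
  exact ((summable_nat_add_iff M).2 hs).sum_le_tsum _ (fun k _ => h0 (k + M))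

theorem term_le (fac e u C co G F m5 n5 : ℝ) (hfac : 0 < fac) (he : 0 < e) (hu : 0 < u)
    (hC : 0 < C) (hco : 0 ≤ co) (hG : G = fac * u) (hF : F ≤ fac * e * co)
    (h1 : C / 2 ≤ u / e * n5) (h2 : n5 ≤ 6 * m5) : F / G ≤ co * (12 / C * m5) := by
  have hGpos : 0 < G := by
    rw [hG]
    positivity
  rw [div_le_iff₀ hGpos]
  refine hF.trans ?_
  have h3 : e ≤ 12 / C * m5 * u := by
    have h4 : C / 2 * e ≤ u * n5 := by
      have h5 := mul_le_mul_of_nonneg_right h1 he.le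
      have h6 : u / e * n5 * e = u * n5 := by
        field_simp
      rw [h6] at h5
      exact h5
    have h7 : u * n5 ≤ u * (6 * m5) := mul_le_mul_of_nonneg_left h2 hu.le
    have h8 : C * e ≤ C * (12 / C * m5 * u) := by
      have h9 : C * (12 / C * m5 * u) = 12 * m5 * u := by
        field_simp
      rw [h9]
      nlinarith
    exact le_of_mul_le_mul_left h8 hC
  have h10 : fac * e * co = (fac * co) * e := by ring
  have h11 : co * (12 / C * m5) * G = (fac * co) * (12 / C * m5 * u) := by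
    rw [hG]
    ring
  rw [h10, h11]
  exact mul_le_mul_of_nonneg_left h3 (by positivity)

end A39S

theorem st_S05 (h9 : ST_T09) (h10 : ST_T10) (h11 : ST_T11) : ST_S05 := by
  refine ⟨100, by norm_num, ?_⟩
  intro P F a c hP hc hF0 hF ha hs htl ε hε
  have hP0 : (1 : ℝ) ≤ (P : ℝ) := by exact_mod_cast hP
  have hsq : (1 : ℝ) ≤ Real.sqrt P := by
    rw [Real.one_le_sqrt]
    exact hP0
  have h8 : (1 : ℝ) ≤ (8 : ℝ) ^ P := one_le_pow₀ (by norm_num)
  set D : ℝ := (8 : ℝ) ^ P * Real.sqrt P with hD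
  have hD1 : (1 : ℝ) ≤ D := by
    rw [hD]
    nlinarith
  have hcP : D / 8 ≤ cP P := (h11 P hP).1
  have hcPpos : 0 < cP P := lt_of_lt_of_le (by positivity) hcP
  have hev1 : ∀ᶠ N : ℕ in atTop, cP P / 2 ≤ uu N P / 12 ^ N * (N : ℝ) ^ (5 / 2 : ℝ) := by
    have := (h10 P hP).eventually (lt_mem_nhds (show cP P / 2 < cP P by linarith))
    exact this.mono (fun N hN => hN.le)
  obtain ⟨N0, hN0⟩ := eventually_atTop.1 hev1
  have hev2 := htl (ε / 100) (by positivity)
  filter_upwards [hev2, eventually_ge_atTop (max N0 1)] with M hM1 hM2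
  have hMN : N0 ≤ M := le_trans (le_max_left _ _) hM2
  have hM0 : 1 ≤ M := le_trans (le_max_right _ _) hM2
  have hMpos : (0 : ℝ) < (M : ℝ) := by exact_mod_cast hM0
  set m5 : ℝ := (M : ℝ) ^ (5 / 2 : ℝ) with hm5
  have hm5pos : 0 < m5 := Real.rpow_pos_of_pos hMpos _
  have hsum : ∑ N ∈ Finset.Ico M (2 * M), F N / (Nat.card {x // x ∈ GQ N P} : ℝ) ≤
      ∑ N ∈ Finset.Ico M (2 * M), PowerSeries.coeff N a * (12 / cP P * m5) := by
    apply Finset.sum_le_sum
    intro N hN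
    rw [Finset.mem_Ico] at hN
    refine A39S.term_le _ (12 ^ N) (uu N P) (cP P) _ _ _ m5 ((N : ℝ) ^ (5 / 2 : ℝ))
      (by exact_mod_cast Nat.factorial_pos (4 * N + 2 * P)) (by positivity) (A39S.uu_pos N P)
      hcPpos (ha N) (h9 N P hP) (hF N) (hN0 N (by omega)) ?_
    have h2 : (N : ℝ) ≤ 2 * (M : ℝ) := by exact_mod_cast hN.2.le
    have h3 : (N : ℝ) ^ (5 / 2 : ℝ) ≤ (2 * (M : ℝ)) ^ (5 / 2 : ℝ) :=
      Real.rpow_le_rpow (by positivity) h2 (by norm_num)
    rw [Real.mul_rpow (by norm_num) hMpos.le] at h3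
    exact h3.trans (mul_le_mul_of_nonneg_right A39S.two_rpow hm5pos.le)
  rw [← Finset.sum_mul] at hsum
  have hsum2 := hsum.trans (mul_le_mul_of_nonneg_right
    ((A39S.sum_le_tl a ha hs M).trans hM1) (by positivity : 0 ≤ 12 / cP P * m5))
  have hmm : (M : ℝ) ^ (-(3 / 2) : ℝ) * m5 = M := by
    rw [hm5, ← Real.rpow_add hMpos]
    norm_num
  have hfin : 1 / (M : ℝ) * ((c + ε / 100) * (M : ℝ) ^ (-(3 / 2) : ℝ) * (12 / cP P * m5)) =
      (c + ε / 100) * (12 / cP P) := by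
    have e1 : (c + ε / 100) * (M : ℝ) ^ (-(3 / 2) : ℝ) * (12 / cP P * m5) =
        (c + ε / 100) * (12 / cP P) * ((M : ℝ) ^ (-(3 / 2) : ℝ) * m5) := by ring
    rw [e1, hmm]
    field_simp
  have hstep := mul_le_mul_of_nonneg_left hsum2 (by positivity : 0 ≤ 1 / (M : ℝ))
  rw [hfin] at hstep
  refine hstep.trans ?_
  have h12 : 12 / cP P ≤ 100 / D := by
    rw [div_le_div_iff₀ hcPpos (by linarith)]
    nlinarith
  have h13 : (c + ε / 100) * (12 / cP P) ≤ (c + ε / 100) * (100 / D) :=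
    mul_le_mul_of_nonneg_left h12 (by positivity)
  refine h13.trans ?_
  have h14 : (c + ε / 100) * (100 / D) = 100 * c / D + ε / D := by
    field_simp
  rw [h14]
  have h15 : ε / D ≤ ε := div_le_self hε.le hD1
  linarith

end

end QR
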