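import Pool.Agent.Helper98.QR.StmtsS

/-!
# Row SS: the interface of block S
-/

set_option autoImplicit false

namespace QR

noncomputable section

open Filter Topology

namespace A39SS

theorem finite_rmap (D : Type) [Finite D] : Finite (RMap D) := by
  apply Finite.of_injective (fun m : RMap D => (m.rot, m.opp))
  intro m m' h
  have h1 := congrArg Prod.fst h
  have h2 := congrArg Prod.snd h
  exact RMap.ext h1 h2

theorem finite_SQ (n p : ℕ) : (SQ n p).Finite := by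
  have h1 : Finite (RMap (Fin (4 * n + 2 * p))) := finite_rmap _
  have h2 : Finite (RMap (Fin (4 * n + 2 * p)) × Fin (4 * n + 2 * p)) := inferInstance
  exact Set.toFinite _

theorem avS_eq (n p : ℕ) (X : (D : Type) → RMap D → D → ℝ) :
    avS n p X = (∑ x ∈ (finite_SQ n p).toFinset, X _ x.1 x.2) /
      ((finite_SQ n p).toFinset.card : ℝ) := by
  unfold avS
  rw [finsum_mem_eq_finite_toFinset_sum _ (finite_SQ n p)]
  congr 2
  exact (Nat.card_coe_set_eq (SQ n p)).trans (Set.ncard_eq_toFinset_card _ (finite_SQ n p))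

theorem avS_le (n p : ℕ) (hne : (SQ n p).Nonempty) (X Y : (D : Type) → RMap D → D → ℝ)
    (a d : ℝ) (h : ∀ x ∈ SQ n p, X _ x.1 x.2 ≤ a * Y _ x.1 x.2 + d) :
    avS n p X ≤ a * avS n p Y + d := by
  have hpos : 0 < ((finite_SQ n p).toFinset.card : ℝ) := by
    have : 0 < (finite_SQ n p).toFinset.card := by
      rw [Finset.card_pos, Set.Finite.toFinset_nonempty]
      exact hne
    exact_mod_cast this
  rw [avS_eq, avS_eq, div_le_iff₀ hpos]
  have h1 : ∑ x ∈ (finite_SQ n p).toFinset, X _ x.1 x.2 ≤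
      ∑ x ∈ (finite_SQ n p).toFinset, (a * Y _ x.1 x.2 + d) := by
    apply Finset.sum_le_sum
    intro x hx
    exact h x ((Set.Finite.mem_toFinset _).1 hx)
  refine h1.trans (le_of_eq ?_)
  rw [Finset.sum_add_distrib, ← Finset.mul_sum, Finset.sum_const, nsmul_eq_mul]
  field_simp

theorem Ftube_nonneg (h : ℕ) (D : Type) (m : RMap D) (o : D) : 0 ≤ Ftube h D m o := by
  unfold Ftube
  positivity

theorem Fbad_nonneg (t h : ℕ) (D : Type) (m : RMap D) (o : D) : 0 ≤ Fbad t h D m o := by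
  unfold Fbad
  positivity

theorem Fdeg_nonneg (h : ℕ) (D : Type) (m : RMap D) (o : D) : 0 ≤ Fdeg h D m o := by
  unfold Fdeg
  apply finsum_nonneg
  intro v
  apply finsum_nonneg
  intro _
  positivity

theorem tube_nn (T : ℕ) (D : Type) (m : RMap D) (o : D) : ∀ t ∈ Finset.Icc 1 T,
    0 ≤ (1 / (t : ℝ) ^ 2) * (Ftube (hh t) D m o / ((hh t : ℝ) + 2) ^ 2) := by
  intro t _
  have := Ftube_nonneg (hh t) D m o
  positivity

theorem bad_nn (T : ℕ) (D : Type) (m : RMap D) (o : D) : ∀ t ∈ Finset.Icc 2 T,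
    0 ≤ (1 / (t : ℝ) ^ 2) * ((t : ℝ) ^ 200 * Fbad t (hh t) D m o) := by
  intro t _
  have := Fbad_nonneg t (hh t) D m o
  positivity

theorem deg_nn (T : ℕ) (D : Type) (m : RMap D) (o : D) : ∀ h ∈ Finset.Icc 1 T,
    0 ≤ (1 / (h : ℝ) ^ 2) * (Fdeg h D m o / ((h : ℝ) + 3) ^ 3) := by
  intro h _
  have := Fdeg_nonneg h D m o
  positivity

theorem YY_nonneg (T : ℕ) (D : Type) (m : RMap D) (o : D) : 0 ≤ YY T D m o := by
  unfold YY
  have h1 := Finset.sum_nonneg (tube_nn T D m o)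
  have h2 := Finset.sum_nonneg (bad_nn T D m o)
  have h3 := Finset.sum_nonneg (deg_nn T D m o)
  linarith

theorem tube_le (T t : ℕ) (h1 : 1 ≤ t) (h2 : t ≤ T) (D : Type) (m : RMap D) (o : D) :
    Ftube (hh t) D m o ≤ (t : ℝ) ^ 2 * ((hh t : ℝ) + 2) ^ 2 * YY T D m o := by
  have a1 := Finset.single_le_sum (tube_nn T D m o) (Finset.mem_Icc.2 ⟨h1, h2⟩)
  have a2 := Finset.sum_nonneg (bad_nn T D m o)
  have a3 := Finset.sum_nonneg (deg_nn T D m o)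
  have a4 : (1 / (t : ℝ) ^ 2) * (Ftube (hh t) D m o / ((hh t : ℝ) + 2) ^ 2) ≤ YY T D m o := by
    unfold YY
    linarith
  have ht : (0 : ℝ) < (t : ℝ) := by exact_mod_cast h1
  have a5 := mul_le_mul_of_nonneg_left a4 (by positivity : 0 ≤ (t : ℝ) ^ 2 * ((hh t : ℝ) + 2) ^ 2)
  refine le_trans (le_of_eq ?_) a5
  field_simp

theorem bad_le (T t : ℕ) (h1 : 2 ≤ t) (h2 : t ≤ T) (D : Type) (m : RMap D) (o : D) :
    Fbad t (hh t) D m o ≤ YY T D m o := by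
  have a1 := Finset.sum_nonneg (tube_nn T D m o)
  have a2 := Finset.single_le_sum (bad_nn T D m o) (Finset.mem_Icc.2 ⟨h1, h2⟩)
  have a3 := Finset.sum_nonneg (deg_nn T D m o)
  have a4 : (1 / (t : ℝ) ^ 2) * ((t : ℝ) ^ 200 * Fbad t (hh t) D m o) ≤ YY T D m o := by
    unfold YY
    linarith
  refine le_trans ?_ a4
  have ht : (1 : ℝ) ≤ (t : ℝ) := by exact_mod_cast (by omega : 1 ≤ t)
  have hF := Fbad_nonneg t (hh t) D m o
  have e1 : (1 / (t : ℝ) ^ 2) * ((t : ℝ) ^ 200 * Fbad t (hh t) D m o) =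
      (t : ℝ) ^ 198 * Fbad t (hh t) D m o := by
    field_simp
  rw [e1]
  exact le_mul_of_one_le_left hF (one_le_pow₀ ht)

theorem deg_le (T h : ℕ) (h1 : 1 ≤ h) (h2 : h ≤ T) (D : Type) (m : RMap D) (o : D) :
    Fdeg h D m o ≤ 64 * (h : ℝ) ^ 5 * YY T D m o := by
  have a1 := Finset.sum_nonneg (tube_nn T D m o)
  have a2 := Finset.sum_nonneg (bad_nn T D m o)
  have a3 := Finset.single_le_sum (deg_nn T D m o) (Finset.mem_Icc.2 ⟨h1, h2⟩)
  have a4 : (1 / (h : ℝ) ^ 2) * (Fdeg h D m o / ((h : ℝ) + 3) ^ 3) ≤ YY T D m o := by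
    unfold YY
    linarith
  have ht : (1 : ℝ) ≤ (h : ℝ) := by exact_mod_cast h1
  have a5 := mul_le_mul_of_nonneg_left a4 (by positivity : 0 ≤ (h : ℝ) ^ 2 * ((h : ℝ) + 3) ^ 3)
  have a6 : (h : ℝ) ^ 2 * ((h : ℝ) + 3) ^ 3 *
      ((1 / (h : ℝ) ^ 2) * (Fdeg h D m o / ((h : ℝ) + 3) ^ 3)) = Fdeg h D m o := by
    field_simp
  rw [a6] at a5
  refine a5.trans (mul_le_mul_of_nonneg_right ?_ (YY_nonneg T D m o))
  have a7 : ((h : ℝ) + 3) ^ 3 ≤ (4 * h) ^ 3 := by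
    apply pow_le_pow_left₀ (by positivity)
    linarith
  calc (h : ℝ) ^ 2 * ((h : ℝ) + 3) ^ 3 ≤ (h : ℝ) ^ 2 * (4 * h) ^ 3 :=
        mul_le_mul_of_nonneg_left a7 (by positivity)
    _ = 64 * (h : ℝ) ^ 5 := by ring

theorem hh_le (t : ℕ) (h : 1 ≤ t) : (hh t : ℝ) + 2 ≤ 7 * (t : ℝ) ^ 35 := by
  have ht : (1 : ℝ) ≤ (t : ℝ) := by exact_mod_cast h
  have e : (hh t : ℝ) = (t : ℝ) ^ 35 + 4 * (t : ℝ) ^ 16 := by
    unfold hh
    push_cast
    ring
  rw [e]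
  have h1 : (t : ℝ) ^ 16 ≤ (t : ℝ) ^ 35 := pow_le_pow_right₀ ht (by norm_num)
  have h2 : (1 : ℝ) ≤ (t : ℝ) ^ 35 := one_le_pow₀ ht
  linarith

/-- the bound for the net -/
def NetC (t p : ℕ) (D : Type) (m : RMap D) (o : D) : ℝ :=
  if t < 8 then Ftube (hh t) D m o
  else 2 * p + Ftube (hh t) D m o / (t : ℝ) ^ 56 + Fbad t (hh t) D m o

theorem NetC_le (T t p : ℕ) (h1 : 1 ≤ t) (h2 : t ≤ T) (D : Type) (m : RMap D) (o : D) :
    NetC t p D m o ≤ (50 * 8 ^ 56) * (t : ℝ) ^ 16 * YY T D m o + 2 * p := by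
  have ht : (1 : ℝ) ≤ (t : ℝ) := by exact_mod_cast h1
  have hY := YY_nonneg T D m o
  have hT : Ftube (hh t) D m o ≤ (49 * (t : ℝ) ^ 72) * YY T D m o := by
    refine (tube_le T t h1 h2 D m o).trans (mul_le_mul_of_nonneg_right ?_ hY)
    have h3 := hh_le t h1
    have h4 : ((hh t : ℝ) + 2) ^ 2 ≤ (7 * (t : ℝ) ^ 35) ^ 2 :=
      pow_le_pow_left₀ (by positivity) h3 2
    calc (t : ℝ) ^ 2 * ((hh t : ℝ) + 2) ^ 2 ≤ (t : ℝ) ^ 2 * (7 * (t : ℝ) ^ 35) ^ 2 :=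
          mul_le_mul_of_nonneg_left h4 (by positivity)
      _ = 49 * (t : ℝ) ^ 72 := by ring
  have h16 : (1 : ℝ) ≤ (t : ℝ) ^ 16 := one_le_pow₀ ht
  have h8 : (1 : ℝ) ≤ (8 : ℝ) ^ 56 := one_le_pow₀ (by norm_num)
  unfold NetC
  by_cases h : t < 8
  · rw [if_pos h]
    have ht8 : (t : ℝ) ≤ 8 := by exact_mod_cast h.le
    have h5 : (t : ℝ) ^ 72 ≤ 8 ^ 56 * (t : ℝ) ^ 16 := by
      have e : (t : ℝ) ^ 72 = (t : ℝ) ^ 56 * (t : ℝ) ^ 16 := by ring
      rw [e]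
      exact mul_le_mul_of_nonneg_right (pow_le_pow_left₀ (by positivity) ht8 56) (by positivity)
    have h6 : (49 * (t : ℝ) ^ 72) * YY T D m o ≤ (50 * 8 ^ 56) * (t : ℝ) ^ 16 * YY T D m o := by
      apply mul_le_mul_of_nonneg_right _ hY
      have : (0 : ℝ) ≤ 8 ^ 56 * (t : ℝ) ^ 16 := by positivity
      linarith
    have h7 : (0 : ℝ) ≤ 2 * (p : ℝ) := by positivity
    linarith
  · rw [if_neg h]
    have hb := bad_le T t (by omega) h2 D m o
    have h5 : Ftube (hh t) D m o / (t : ℝ) ^ 56 ≤ (49 * (t : ℝ) ^ 16) * YY T D m o := by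
      rw [div_le_iff₀ (by positivity)]
      refine hT.trans (le_of_eq ?_)
      ring
    have h6 : (49 * (t : ℝ) ^ 16) * YY T D m o + YY T D m o ≤
        (50 * 8 ^ 56) * (t : ℝ) ^ 16 * YY T D m o := by
      have e : (49 * (t : ℝ) ^ 16) * YY T D m o + YY T D m o =
        (49 * (t : ℝ) ^ 16 + 1) * YY T D m o := by ring
      rw [e]
      apply mul_le_mul_of_nonneg_right _ hY
      have h9 : 49 * (t : ℝ) ^ 16 + 1 ≤ 50 * (t : ℝ) ^ 16 := by linarith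
      have h10 : 50 * (t : ℝ) ^ 16 ≤ 50 * 8 ^ 56 * (t : ℝ) ^ 16 := by
        apply mul_le_mul_of_nonneg_right _ (by positivity)
        linarith
      linarith
    linarith

end A39SS

theorem st_S (h8 : ST_S08) (h9 : ST_S09) : ST_S := by
  obtain ⟨K, hK, hS⟩ := h8
  refine ⟨64 * K + 50 * 8 ^ 56 * K + 2, by positivity, ?_⟩
  intro T p0 n0
  obtain ⟨p, n, hp0, hp1, hn0, hne, hav⟩ := hS T p0 n0
  have hp : (1 : ℝ) ≤ (p : ℝ) := by exact_mod_cast hp1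
  refine ⟨p, n, hp0, hp1, hn0, hne, ?_, ?_⟩
  · intro h h1 h2
    have hh1 : (1 : ℝ) ≤ (h : ℝ) := by exact_mod_cast h1
    have a1 := A39SS.avS_le n p hne (Fdeg h) (YY T) (64 * (h : ℝ) ^ 5) 0 (by
      intro x _
      rw [add_zero]
      exact A39SS.deg_le T h h1 h2 _ _ _)
    rw [add_zero] at a1
    refine a1.trans ?_
    have a2 : 64 * (h : ℝ) ^ 5 * avS n p (YY T) ≤ 64 * (h : ℝ) ^ 5 * (K * p) :=
      mul_le_mul_of_nonneg_left hav (by positivity)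
    refine a2.trans ?_
    have a3 : (0 : ℝ) ≤ (h : ℝ) ^ 5 * p := by positivity
    have a4 : (0 : ℝ) ≤ (50 * 8 ^ 56 * K + 2) * ((h : ℝ) ^ 5 * p) := by positivity
    have e : (64 * K + 50 * 8 ^ 56 * K + 2) * (h : ℝ) ^ 5 * p =
      64 * (h : ℝ) ^ 5 * (K * p) + (50 * 8 ^ 56 * K + 2) * ((h : ℝ) ^ 5 * p) := by ring
    rw [e]
    linarith
  · intro t h1 h2
    have ht : (1 : ℝ) ≤ (t : ℝ) := by exact_mod_cast h1
    refine ⟨A39SS.NetC t p, ?_, ?_⟩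
    · have a1 := A39SS.avS_le n p hne (A39SS.NetC t p) (YY T) ((50 * 8 ^ 56) * (t : ℝ) ^ 16)
        (2 * p) (fun x _ => A39SS.NetC_le T t p h1 h2 _ _ _)
      refine a1.trans ?_
      have a2 : (50 * 8 ^ 56) * (t : ℝ) ^ 16 * avS n p (YY T) ≤
          (50 * 8 ^ 56) * (t : ℝ) ^ 16 * (K * p) :=
        mul_le_mul_of_nonneg_left hav (by positivity)
      have h16 : (1 : ℝ) ≤ (t : ℝ) ^ 16 := one_le_pow₀ ht
      have a3 : 2 * (p : ℝ) ≤ 2 * ((t : ℝ) ^ 16 * p) := by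
        have : (p : ℝ) ≤ (t : ℝ) ^ 16 * p := le_mul_of_one_le_left (by positivity) h16
        linarith
      have a4 : (0 : ℝ) ≤ 64 * K * ((t : ℝ) ^ 16 * p) := by positivity
      have e : (64 * K + 50 * 8 ^ 56 * K + 2) * (t : ℝ) ^ 16 * p =
        64 * K * ((t : ℝ) ^ 16 * p) + (50 * 8 ^ 56) * (t : ℝ) ^ 16 * (K * p) +
          2 * ((t : ℝ) ^ 16 * p) := by ring
      rw [e]
      linarith
    · intro x hx
      obtain ⟨Net, b1, b2, b3⟩ := h9 _ x.1 x.2 n p t hp1 h1 hx.1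
      refine ⟨Net, ?_, b1⟩
      unfold A39SS.NetC
      by_cases h : t < 8
      · rw [if_pos h]
        exact b2 h
      · rw [if_neg h]
        exact b3 (by omega)

end

end QR
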